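import Pool.Agent.T6helper6.AF.Defs

/-!
# Motives over an extension `K` of a perfect field `k` and their models over `k`-varieties

`D = DM_c(k)` and `C = DM_c(K)`, where `k` is a perfect field and `K` is any extension field of `k`.
If `K` is not perfect we replace it by its perfection, which does not change `DM_c(K)`.
A model is given by a smooth connected variety `U` over `k`, with an embedding of its function field
in `K`, and a closed point `u` of `U`, with residue field `k'`; `B` is the thick subcategory of
`DM_c(U)` generated by the smooth projective motives over `U`. Write `a : U ⟶ Spec k` and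
`r : Spec k' ⟶ Spec k` for the projections.
-/

set_option autoImplicit false

open CategoryTheory Limits MonoidalCategory Pretriangulated Triangulated Opposite

namespace Pool.Agent.K6.H98.PF

open Pool.Agent.Y116.MT Pool.Agent.T6helper6.MT Pool.Agent.T6helper6.FF Pool.Agent.T6helper6.AF

universe v₁ v₂ v₃ u₁ u₂ u₃ w

/-- The power `f ^ N` of an endomorphism. -/
abbrev epow {B : Type u₁} [Category.{v₁} B] {X : B} (f : X ⟶ X) (N : ℕ) : X ⟶ X :=
  ((show End X from f) ^ N : End X)

section

variable {C : Type u₁} [Category.{v₁} C] [Preadditive C] [HasZeroObject C] [HasShift C ℤ]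
  [∀ n : ℤ, (shiftFunctor C n).Additive] [Pretriangulated C] [MonoidalCategory C]
  [SymmetricCategory C] [TensorTriangulated C] {E : Type w} [Field E]

/-- The cohomology in degree `n`. -/
abbrev coh (R : Realisation C E) (n : ℤ) : C ⥤ ModuleCat.{w} E := shiftFunctor C n ⋙ R.H

/-- The cohomology of `X` in negative degrees vanishes. -/
def NonNeg (R : Realisation C E) (X : C) : Prop := ∀ n : ℤ, n < 0 → IsZero (R.H.obj (X⟦n⟧))

/-- `f` is zero on cohomology in all degrees. -/
def CohZero (R : Realisation C E) {X Y : C} (f : X ⟶ Y) : Prop := ∀ n : ℤ, R.H.map (f⟦n⟧') = 0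

/-- `e` acts on cohomology as the Künneth projector to the `j`-th cohomology. -/
def IsKunneth (R : Realisation C E) (j : ℤ) {N : C} (e : N ⟶ N) : Prop :=
  R.H.map (e⟦j⟧') = 𝟙 _ ∧ ∀ n : ℤ, n ≠ j → R.H.map (e⟦n⟧') = 0

end

/-- The data of a model: `B` is the category of lisse motives over `U`, `D = DM_c(k)` and
`C = DM_c(K)`. -/
structure Family (B : Type u₃) [Category.{v₃} B] [Preadditive B] (D : Type u₁) [Category.{v₁} D]
    [Preadditive D] [MonoidalCategory D] [RightRigidCategory D] (C : Type u₂) [Category.{v₂} C]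
    [Preadditive C] where
  /-- the unit motive over `U` -/
  unit : B
  /-- the smooth projective motives over `U`: the direct summands of the `M(X/U)(n)[2n]`, `X` smooth
  and projective over `U` -/
  P : B → Prop
  /-- the pullback to `K` -/
  generic : B ⥤ C
  [additive : generic.Additive]
  /-- `r_* X_u`, where `X_u` is the fibre at the closed point `u` -/
  fibre : B ⥤ D
  /-- `a_* Hom(X, Y)` -/
  S : Bᵒᵖ ⥤ B ⥤ D
  /-- morphisms over `U` are morphisms from the unit to `a_* Hom(X, Y)` -/
  name (X Y : B) : (X ⟶ Y) ≃+ (𝟙_ D ⟶ (S.obj (op X)).obj Y)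
  name_left {X' X Y : B} (f : X' ⟶ X) (g : X ⟶ Y) :
    name X' Y (f ≫ g) = name X Y g ≫ (S.map f.op).app Y
  name_right {X Y Y' : B} (f : X ⟶ Y) (g : Y ⟶ Y') :
    name X Y' (f ≫ g) = name X Y f ≫ (S.obj (op X)).map g
  /-- the map `a_* Hom(X, X) ⟶ Hom(r_* X_u, r_* X_u) = r_* X_u ⊗ (r_* X_u)ᘁ` -/
  restrict (X : B) : (S.obj (op X)).obj X ⟶ fibre.obj X ⊗ (fibre.obj X)ᘁ
  name_restrict {X : B} (f : X ⟶ X) : name X X f ≫ restrict X = nm (fibre.map f)

attribute [instance] Family.additive

/-- A model. -/
structure Model (D : Type u₁) [Category.{v₁} D] [Preadditive D] [MonoidalCategory D]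
    [RightRigidCategory D] (C : Type u₂) [Category.{v₂} C] [Preadditive C] where
  B : Type u₃
  [category : Category.{v₃} B]
  [preadditive : Preadditive B]
  family : Family B D C

attribute [instance] Model.category Model.preadditive

section

variable {B : Type u₃} [Category.{v₃} B] [Preadditive B]
  {D : Type u₁} [Category.{v₁} D] [Preadditive D] [HasZeroObject D] [HasShift D ℤ]
  [∀ n : ℤ, (shiftFunctor D n).Additive] [Pretriangulated D] [MonoidalCategory D]
  [SymmetricCategory D] [TensorTriangulated D] [RightRigidCategory D]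
  {C : Type u₂} [Category.{v₂} C] [Preadditive C] [HasZeroObject C] [HasShift C ℤ]
  [∀ n : ℤ, (shiftFunctor C n).Additive] [Pretriangulated C] [MonoidalCategory C]
  [SymmetricCategory C] [TensorTriangulated C] {E : Type w} [Field E]

namespace Family

/-- Smooth base change: the cohomology of the generic fibre is a direct summand of the cohomology of
`r_* X_u`, which is the sum of the cohomology groups of the geometric points over `u`. -/
def Comparison (m : Family B D C) (RD : Realisation D E) (RC : Realisation C E) : Prop :=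
  ∀ n : ℤ, Nonempty (Retract (m.generic ⋙ coh RC n) (m.fibre ⋙ coh RD n))

/-- If the cohomology sheaves of `X` in negative degrees vanish then so does the cohomology of `U`
with coefficients in `X` in negative degrees. -/
def Negative (m : Family B D C) (RD : Realisation D E) (RC : Realisation C E) : Prop :=
  ∀ X : B, NonNeg RC (m.generic.obj X) → NonNeg RD ((m.S.obj (op m.unit)).obj X)

/-- A section of such an `X` over `U` with zero stalk at the generic point is zero. -/
def Injectivity (m : Family B D C) (RD : Realisation D E) (RC : Realisation C E) : Prop :=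
  ∀ (X : B) (x : m.unit ⟶ X), NonNeg RC (m.generic.obj X) → RC.H.map (m.generic.map x) = 0 →
    RD.H.map (m.name _ _ x) = 0

/-- An endomorphism in the derived category of `l`-adic sheaves on `U` which is zero on the
cohomology sheaves is nilpotent. -/
def Nilpotence (m : Family B D C) (RD : Realisation D E) (RC : Realisation C E) : Prop :=
  ∀ (M : B) (f : M ⟶ M), m.P M → CohZero RC (m.generic.map f) →
    ∃ N : ℕ, CohZero RD ((m.S.obj (op M)).map (epow f N))

/-- Deligne, with a smooth compactification `N`: a global section `z` of `M` with nonzero stalk is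
mapped to a nonzero section of `ℚ_l` by some morphism from `M` to `ℚ_l` of weight zero; `ρ` is
given by the closed point `u` and the trace from `k'` to `k`. -/
def Semisimplicity (m : Family B D C) (RD : Realisation D E) (RC : Realisation C E)
    (PD : D → Prop) : Prop :=
  ∀ (M : B) (z : m.unit ⟶ M), m.P M → RC.H.map (m.generic.map z) ≠ 0 →
    ∃ (N : D) (γ : N ⟶ (m.S.obj (op M)).obj m.unit)
      (ρ : (m.S.obj (op m.unit)).obj m.unit ⟶ 𝟙_ D),
      PD N ∧ RD.H.map (γ ≫ (m.S.map z.op).app m.unit ≫ ρ) ≠ 0

/-- Deligne, with a smooth compactification `N`: the Künneth projector of `r_* M_u` comes from a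
global section of `Hom(M, M)` of weight zero. -/
def Projectors (m : Family B D C) (RD : Realisation D E) (PD : D → Prop) : Prop :=
  ∀ (M : B) (j : ℤ) (e : m.fibre.obj M ⟶ m.fibre.obj M), m.P M → IsKunneth RD j e →
    ∃ (N : D) (γ : N ⟶ (m.S.obj (op M)).obj M) (y : RD.H.obj (𝟙_ D) ⟶ RD.H.obj N),
      PD N ∧ y ≫ RD.H.map (γ ≫ m.restrict M) = RD.H.map (nm e)

/-- The elements `x : 𝟙 ⟶ X` over `K` which come from `U`. -/
def HasElement (m : Family B D C) (PC : C → Prop) {X : C} (x : 𝟙_ C ⟶ X) : Prop :=
  ∃ (Y : B) (y : m.unit ⟶ Y) (e₀ : m.generic.obj m.unit ≅ 𝟙_ C) (e : m.generic.obj Y ≅ X),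
    (PC X → m.P Y) ∧ m.generic.map y = e₀.hom ≫ x ≫ e.inv

/-- The endomorphisms of Chow motives over `K` which come from `U`. -/
def HasEndomorphism (m : Family B D C) {M : C} (f : M ⟶ M) : Prop :=
  ∃ (Y : B) (y : Y ⟶ Y) (e : m.generic.obj Y ≅ M), m.P Y ∧ m.generic.map y = e.hom ≫ f ≫ e.inv

end Family

variable {Λ : Type*} {E : Λ → Type w} [∀ l, Field (E l)]

/-- The known properties of a model, for realisations `RD l`, `RC l` and a prime `l₀`; `PD` is the
class of Chow motives over `k`. -/
structure IsModel (m : Family B D C) (RD : ∀ l, Realisation D (E l))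
    (RC : ∀ l, Realisation C (E l)) (l₀ : Λ) (PD : D → Prop) : Prop where
  /-- `r_* M_u` is a Chow motive over `k` -/
  fibre {M : B} : m.P M → PD (m.fibre.obj M)
  comparison (l : Λ) : m.Comparison (RD l) (RC l)
  negative : m.Negative (RD l₀) (RC l₀)
  injective : m.Injectivity (RD l₀) (RC l₀)
  nilpotent : m.Nilpotence (RD l₀) (RC l₀)
  semisimple : m.Semisimplicity (RD l₀) (RC l₀) PD
  projector : m.Projectors (RD l₀) PD

/-- Spreading out: objects and morphisms over `K` come from models. -/
structure SpreadOut {ι : Type*} (m : ι → Model.{v₁, v₂, v₃, u₁, u₂, u₃} D C) (PC : C → Prop) :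
    Prop where
  element {X : C} (x : 𝟙_ C ⟶ X) : ∃ i : ι, (m i).family.HasElement PC x
  endomorphism {M : C} (hM : PC M) (f : M ⟶ M) : ∃ i : ι, (m i).family.HasEndomorphism f

/-- The base change functor `Φ` from `D = DM_c(k)` to `C = DM_c(K)`, and its known properties. The
last three follow by spreading out, specialisation to a closed point, and transfer. -/
structure IsBaseChange (Φ : D ⥤ C) (e₀ : Φ.obj (𝟙_ D) ≅ 𝟙_ C) (RD : ∀ l, Realisation D (E l))
    (RC : ∀ l, Realisation C (E l)) (PD : D → Prop) (PC : C → Prop) : Prop where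
  /-- Chow motives are mapped to Chow motives -/
  chow {M : D} : PD M → PC (Φ.obj M)
  /-- the cohomology groups agree -/
  comparison (l : Λ) (n : ℤ) : Nonempty (coh (RD l) n ≅ Φ ⋙ coh (RC l) n)
  shift (X : D) (n : ℤ) : Nonempty (Φ.obj (X⟦n⟧) ≅ (Φ.obj X)⟦n⟧)
  faithful {X Y : D} (f : X ⟶ Y) : Φ.map f = 0 → f = 0
  /-- if `f ≫ g` is nonzero for some `g` defined over `K` then also for some `g` defined over
  `k` -/
  specialise {M : D} (hM : PD M) (f : 𝟙_ D ⟶ M) (g : Φ.obj M ⟶ 𝟙_ C)
    (hfg : e₀.inv ≫ Φ.map f ≫ g ≠ 0) : ∃ g' : M ⟶ 𝟙_ D, f ≫ g' ≠ 0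
  /-- if the Künneth projector is algebraic over `K` then also over `k` -/
  projector {M : D} (hM : PD M) (j : ℤ) (e : Φ.obj M ⟶ Φ.obj M)
    (he : ∀ l, IsKunneth (RC l) j e) : ∃ e' : M ⟶ M, ∀ l, IsKunneth (RD l) j e'

end

end Pool.Agent.K6.H98.PF
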