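import Pool.Agent.K6.H98.PF.Defs
import Pool.Agent.T6helper6.AF.Forth

/-!
# Künneth projectors up to nilpotents give Chow-Künneth decompositions
-/

set_option autoImplicit false
set_option linter.unusedSectionVars false
set_option linter.unusedSimpArgs false
set_option backward.isDefEq.respectTransparency false
set_option backward.defeqAttrib.useBackward true

open CategoryTheory Limits MonoidalCategory Pretriangulated Triangulated Opposite
open scoped Polynomial

namespace Pool.Agent.K6.H98.PF

open Pool.Agent.Y116.MT Pool.Agent.T6helper6.MT Pool.Agent.T6helper6.FF Pool.Agent.T6helper6.AF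

universe v u w

section

variable {C : Type u} [Category.{v} C] [Preadditive C] [HasZeroObject C] [HasShift C ℤ]
  [∀ n : ℤ, (shiftFunctor C n).Additive] [Pretriangulated C] [MonoidalCategory C]
  [SymmetricCategory C] [TensorTriangulated C] [MonoidalPreadditive C] [RightRigidCategory C]
  [Linear ℚ C] {Λ : Type*} {E : Λ → Type w} [∀ l, Field (E l)] [∀ l, CharZero (E l)]
  {R : ∀ l, Realisation C (E l)}

/-- Nilpotent kernel of the realisation. -/
def Nil {E₀ : Type w} [Field E₀] (R₀ : Realisation C E₀) (M : C) : Prop :=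
  ∀ f : M ⟶ M, (∀ n : ℤ, R₀.H.map (f⟦n⟧') = 0) → ∃ N : ℕ, ((show End M from f) ^ N : End M) = 0

lemma pe_sub_one {X : C} (f : X ⟶ X) : pe f (Polynomial.X - 1) = f - 𝟙 X := by
  rw [eq_sub_iff_add_eq, ← pe_one f, ← pe_add, sub_add_cancel, pe_X]

lemma map_sub_one {E₀ : Type w} [Field E₀] {R₀ : Realisation C E₀} {M : C} {e : M ⟶ M} {j : ℤ}
    (he : R₀.H.map (e⟦j⟧') = 𝟙 _) : R₀.H.map ((e - 𝟙 M)⟦j⟧') = 0 := by
  rw [Functor.map_sub, Functor.map_sub, he, CategoryTheory.Functor.map_id,
    CategoryTheory.Functor.map_id, sub_self]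

/-- An idempotent which is a Künneth projector. -/
lemma exists_idem_kunneth {M : C} (l₀ : Λ) (hnil : Nil (R l₀) M) {j : ℤ} {e : M ⟶ M}
    (he : ∀ l, IsKunneth (R l) j e) : ∃ q : ℚ[X], pe e q ≫ pe e q = pe e q ∧
      ∀ l, IsKunneth (R l) j (pe e q) := by
  obtain ⟨N, hN⟩ := hnil (pe e ((Polynomial.X - 1) * Polynomial.X)) (by
    intro n
    rw [pe_mul', pe_X, pe_sub_one, Functor.map_comp, Functor.map_comp]
    by_cases hn : n = j
    · subst hn
      rw [map_sub_one (he l₀).1, zero_comp]
    · rw [(he l₀).2 n hn, comp_zero])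
  have h0 : pe e ((Polynomial.X - 1) ^ (N + 1) * Polynomial.X ^ (N + 1)) = 0 := by
    have h1 : (Polynomial.aeval (R := ℚ) (A := End M) e
        (((Polynomial.X - 1) * Polynomial.X) ^ (N + 1)) : End M) = 0 := by
      rw [map_pow, pow_succ]
      have h2 : ((Polynomial.aeval (R := ℚ) (A := End M) e)
        ((Polynomial.X - 1) * Polynomial.X)) ^ N = (0 : End M) := hN
      rw [h2, zero_mul]
    rw [← mul_pow]
    exact h1
  have hcop : IsCoprime ((Polynomial.X - 1 : ℚ[X]) ^ (N + 1)) (Polynomial.X ^ (N + 1)) := by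
    apply IsCoprime.pow
    exact ⟨-1, 1, by ring⟩
  obtain ⟨a, b, hab⟩ := hcop
  have hid : pe e (b * Polynomial.X ^ (N + 1)) + pe e (a * (Polynomial.X - 1) ^ (N + 1)) = 𝟙 M := by
    have h7 := pe_add e (b * Polynomial.X ^ (N + 1)) (a * (Polynomial.X - 1) ^ (N + 1))
    rw [add_comm (b * _), hab, pe_one] at h7
    exact h7.symm
  refine ⟨b * Polynomial.X ^ (N + 1), ?_, fun l => ⟨?_, fun n hn => ?_⟩⟩
  · have h3 : pe e (b * Polynomial.X ^ (N + 1)) ≫ pe e (a * (Polynomial.X - 1) ^ (N + 1)) = 0 := by
      rw [← pe_mul', show b * Polynomial.X ^ (N + 1) * (a * (Polynomial.X - 1) ^ (N + 1)) =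
        (b * a) * ((Polynomial.X - 1) ^ (N + 1) * Polynomial.X ^ (N + 1)) by ring]
      exact pe_mul_zero _ h0
    have h4 := congrArg (fun z => pe e (b * Polynomial.X ^ (N + 1)) ≫ z) hid
    simp only [Preadditive.comp_add, h3, add_zero, Category.comp_id] at h4
    exact h4
  · have h5 : (R l).H.map ((pe e (a * (Polynomial.X - 1) ^ (N + 1)))⟦j⟧') = 0 := by
      rw [show a * (Polynomial.X - 1) ^ (N + 1) = (a * (Polynomial.X - 1) ^ N) *
        (Polynomial.X - 1) by ring, pe_mul', pe_sub_one, Functor.map_comp, Functor.map_comp,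
        map_sub_one (he l).1, comp_zero]
    have h6 : (R l).H.map ((pe e (b * Polynomial.X ^ (N + 1)) +
        pe e (a * (Polynomial.X - 1) ^ (N + 1)))⟦j⟧') = 𝟙 _ := by
      rw [hid, CategoryTheory.Functor.map_id, CategoryTheory.Functor.map_id]
    rw [Functor.map_add, Functor.map_add, h5, add_zero] at h6
    exact h6
  · rw [show b * Polynomial.X ^ (N + 1) = (b * Polynomial.X ^ N) * Polynomial.X by ring, pe_mul',
      pe_X, Functor.map_comp, Functor.map_comp, (he l).2 n hn, comp_zero]

variable {P : C → Prop}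

/-- Künneth projectors up to nilpotents give Chow-Künneth decompositions. -/
lemma chowKunneth_of_projectors [IsIdempotentComplete C] (hP : IsRigidClass P) (l₀ : Λ)
    (hnil : ∀ M, P M → Nil (R l₀) M)
    (hk : ∀ M, P M → ∀ j : ℤ, ∃ e : M ⟶ M, ∀ l, IsKunneth (R l) j e) : ChowKunneth R P := by
  classical
  -- induction on the number of degrees
  have key : ∀ (k : ℕ) (S : Finset ℤ) (M : C), S.card = k → P M →
      (∀ n, n ∉ S → IsZero ((R l₀).H.obj (M⟦n⟧))) → IsSum R P M := by
    intro k
    induction k with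
    | zero =>
      intro S M hS hM hz
      rw [Finset.card_eq_zero] at hS
      subst hS
      obtain ⟨N, hN⟩ := hnil M hM (𝟙 M) (fun n => (hz n (Finset.notMem_empty n)).eq_of_src _ _)
      have h1 : ((1 : End M) ^ N : End M) = 0 := hN
      rw [one_pow] at h1
      exact IsSum.zero ((IsZero.iff_id_eq_zero M).2 h1)
    | succ k ih =>
      intro S M hS hM hz
      obtain ⟨j, hj⟩ : S.Nonempty := by
        rw [← Finset.card_pos, hS]
        exact Nat.succ_pos k
      obtain ⟨e, he⟩ := hk M hM j
      obtain ⟨q, hq1, hq2⟩ := exists_idem_kunneth l₀ (hnil M hM) he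
      set ε := pe e q with hε
      obtain ⟨L, i, r, h1, h1'⟩ := IsIdempotentComplete.idempotents_split M ε hq1
      have hq1' : (𝟙 M - ε) ≫ (𝟙 M - ε) = 𝟙 M - ε := by
        rw [Preadditive.sub_comp, Category.id_comp, Preadditive.comp_sub, Category.comp_id, hq1,
          sub_self, sub_zero]
      obtain ⟨Y, i', r', h2, h2'⟩ := IsIdempotentComplete.idempotents_split M _ hq1'
      have hi : i ≫ ε = i := by rw [← h1', reassoc_of% h1]
      have hi' : i' ≫ (𝟙 M - ε) = i' := by rw [← h2', reassoc_of% h2]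
      have hir' : i ≫ r' = 0 := by
        have a1 : r' = (𝟙 M - ε) ≫ r' := by rw [← h2', Category.assoc, h2, Category.comp_id]
        rw [a1, ← hi, Category.assoc, Preadditive.sub_comp, Preadditive.comp_sub,
          Category.id_comp, ← Category.assoc ε ε, hq1, sub_self, comp_zero]
      have hi'r : i' ≫ r = 0 := by
        have a1 : r = ε ≫ r := by rw [← h1', Category.assoc, h1, Category.comp_id]
        have a2 : i' ≫ ε = 0 := by
          rw [← hi', Category.assoc, Preadditive.sub_comp, Category.id_comp, hq1, sub_self,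
            comp_zero]
        rw [a1, reassoc_of% a2, zero_comp]
      let θ : M ≅ L ⊞ Y :=
        { hom := biprod.lift r r'
          inv := biprod.desc i i'
          hom_inv_id := by
            rw [biprod.lift_desc, h1', h2', add_sub_cancel]
          inv_hom_id := by
            ext
            · simp [h1]
            · simp [hir']
            · simp [hi'r]
            · simp [h2] }
      have PL : P L := hP.summand i r h1 hM
      have PY : P Y := hP.summand i' r' h2 hM
      have dL : ∀ l, (R l).Deg L j := by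
        intro l n hn
        rw [IsZero.iff_id_eq_zero]
        have a1 : 𝟙 ((R l).H.obj (L⟦n⟧)) = (R l).H.map (i⟦n⟧') ≫ (R l).H.map (ε⟦n⟧') ≫
            (R l).H.map (r⟦n⟧') := by
          rw [← Functor.map_comp, ← Functor.map_comp, ← Functor.map_comp, ← Functor.map_comp,
            reassoc_of% hi, h1, CategoryTheory.Functor.map_id, CategoryTheory.Functor.map_id]
        rw [a1, (hq2 l).2 n hn, zero_comp, comp_zero]
      refine IsSum.sum θ PL dL (ih (S.erase j) Y (by rw [Finset.card_erase_of_mem hj, hS]; rfl)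
        PY ?_)
      intro n hn
      rw [IsZero.iff_id_eq_zero]
      have a1 : 𝟙 ((R l₀).H.obj (Y⟦n⟧)) = (R l₀).H.map (i'⟦n⟧') ≫
          (R l₀).H.map ((𝟙 M - ε)⟦n⟧') ≫ (R l₀).H.map (r'⟦n⟧') := by
        rw [← Functor.map_comp, ← Functor.map_comp, ← Functor.map_comp, ← Functor.map_comp,
          reassoc_of% hi', h2, CategoryTheory.Functor.map_id, CategoryTheory.Functor.map_id]
      by_cases hnj : n = j
      · subst hnj
        have a2 : (R l₀).H.map ((𝟙 M - ε)⟦n⟧') = 0 := by
          rw [Functor.map_sub, Functor.map_sub, (hq2 l₀).1, CategoryTheory.Functor.map_id,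
            CategoryTheory.Functor.map_id, sub_self]
        rw [a1, a2, zero_comp, comp_zero]
      · have a3 : n ∉ S := fun h => hn (Finset.mem_erase.2 ⟨hnj, h⟩)
        rw [a1]
        exact (by
          rw [(hz n a3).eq_of_tgt ((R l₀).H.map (i'⟦n⟧')) 0, zero_comp])
  intro M hM
  obtain ⟨N, hN⟩ := (R l₀).bounded M
  refine key _ (Finset.Icc (-N : ℤ) N) M rfl hM fun n hn => hN n ?_
  rw [Finset.mem_Icc] at hn
  omega

end

end Pool.Agent.K6.H98.PF
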