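import Pool.Agent.K6.H98.PF.Pure
import Pool.Agent.K6.H98.PF.Kun

/-!
# From `k` to `K`
-/

set_option autoImplicit false
set_option linter.unusedSectionVars false
set_option linter.unusedSimpArgs false
set_option backward.isDefEq.respectTransparency false
set_option backward.defeqAttrib.useBackward true

open CategoryTheory Limits MonoidalCategory Pretriangulated Triangulated Opposite ZeroObject

namespace Pool.Agent.K6.H98.PF

open Pool.Agent.Y116.MT Pool.Agent.T6helper6.MT Pool.Agent.T6helper6.FF Pool.Agent.T6helper6.AF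

universe v₁ v₂ v₃ u₁ u₂ u₃ w

section

lemma map_pow_end {B : Type*} [Category B] {C : Type*} [Category C] (G : B ⥤ C) {X : B}
    (f : X ⟶ X) (N : ℕ) : G.map ((show End X from f) ^ N : End X) =
      ((show End (G.obj X) from G.map f) ^ N : End (G.obj X)) := by
  have h := map_pow (G.mapEnd X) (show End X from f) N
  exact h

variable {D : Type u₁} [Category.{v₁} D] [Preadditive D] [HasZeroObject D] [HasShift D ℤ]
  [∀ n : ℤ, (shiftFunctor D n).Additive] [Pretriangulated D] [IsTriangulated D]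
  [MonoidalCategory D] [SymmetricCategory D] [TensorTriangulated D] [MonoidalPreadditive D]
  [RightRigidCategory D] [Linear ℚ D]
  {C : Type u₂} [Category.{v₂} C] [Preadditive C] [HasZeroObject C] [HasShift C ℤ]
  [∀ n : ℤ, (shiftFunctor C n).Additive] [Pretriangulated C] [MonoidalCategory C]
  [SymmetricCategory C] [TensorTriangulated C] {Λ : Type*} {E : Λ → Type w} [∀ l, Field (E l)]
  [∀ l, CharZero (E l)]
  {B : Type u₃} [Category.{v₃} B] [Preadditive B]
  {m : Family.{v₁, v₂, v₃, u₁, u₂, u₃} B D C} {RD : ∀ l, Realisation D (E l)}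
  {RC : ∀ l, Realisation C (E l)} {l₀ : Λ} {PD : D → Prop} (hm : IsModel m RD RC l₀ PD)
  {TD : D} (hD : IsChow (RD l₀) PD TD) {t : TStructure D} (ht : IsMotivic t RD)

include hm hD ht

lemma section_zero {X : B} (x : m.unit ⟶ X)
    (hX : ∀ n : ℤ, n < 0 → IsZero ((RC l₀).H.obj ((m.generic.obj X)⟦n⟧)))
    (hx : (RC l₀).H.map (m.generic.map x) = 0) : x = 0 :=
  (map_eq_zero_iff _ (m.name _ _).injective).1
    (elt_zero hD ht (hm.negative X hX) _ (hm.injective X x hX hx))

lemma section_detect {M : B} (hM : m.P M)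
    (hU : ∀ n : ℤ, n < 0 → IsZero ((RC l₀).H.obj ((m.generic.obj m.unit)⟦n⟧)))
    (z : m.unit ⟶ M) (hz : (RC l₀).H.map (m.generic.map z) ≠ 0) :
    ∃ g : M ⟶ m.unit, (RC l₀).H.map (m.generic.map (z ≫ g)) ≠ 0 := by
  obtain ⟨N, γ, ρ, hN, hne⟩ := hm.semisimple M z hM hz
  obtain ⟨w, hw⟩ := detect_pure hD ht hN _ hne
  refine ⟨(m.name M m.unit).symm (w ≫ γ), ?_⟩
  intro h0
  have h3 := section_zero hm hD ht (z ≫ (m.name M m.unit).symm (w ≫ γ)) hU h0
  apply hw
  have h4 := m.name_left z ((m.name M m.unit).symm (w ≫ γ))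
  rw [h3, map_zero, AddEquiv.apply_symm_apply, Category.assoc] at h4
  rw [reassoc_of% h4.symm, zero_comp]

lemma exists_lift {M : B} (hM : m.P M) (j : ℤ) :
    ∃ f : M ⟶ M, ∀ l, IsKunneth (RC l) j (m.generic.map f) := by
  have hF := hm.fibre hM
  obtain ⟨e, he⟩ := exists_kunneth_of_sum hD.toIsRigidClass j (chowKunneth hD ht _ hF)
  obtain ⟨N, γ, y₀, hN, hy₀⟩ := hm.projector M j e hM (he l₀)
  have hr : LinearMap.range ((RD l₀).H.map (nm e)).hom ≤
      LinearMap.range ((RD l₀).H.map (γ ≫ m.restrict M)).hom := by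
    rintro _ ⟨x, rfl⟩
    refine ⟨y₀ x, ?_⟩
    rw [← hy₀]
    rfl
  obtain ⟨y, hy⟩ := factor_pure hD ht hN (hD.tensor hF (hD.dual hF)) _ _ hr
  have h1 := m.name_restrict ((m.name M M).symm (y ≫ γ))
  rw [AddEquiv.apply_symm_apply, Category.assoc] at h1
  refine ⟨(m.name M M).symm (y ≫ γ), fun l => ?_⟩
  have h2 : ∀ n : ℤ, (RD l).H.map ((m.fibre.map ((m.name M M).symm (y ≫ γ)))⟦n⟧') =
      (RD l).H.map (e⟦n⟧') := by
    intro n
    apply H_of_nm_eq
    rw [← h1]
    exact hy l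
  have key : ∀ n : ℤ, ∃ (i : (RC l).H.obj ((m.generic.obj M)⟦n⟧) ⟶
      (RD l).H.obj ((m.fibre.obj M)⟦n⟧))
      (q : (RD l).H.obj ((m.fibre.obj M)⟦n⟧) ⟶ (RC l).H.obj ((m.generic.obj M)⟦n⟧)),
      i ≫ q = 𝟙 _ ∧ (RC l).H.map ((m.generic.map ((m.name M M).symm (y ≫ γ)))⟦n⟧') =
        i ≫ (RD l).H.map (e⟦n⟧') ≫ q := by
    intro n
    obtain ⟨⟨i, q, hiq⟩⟩ := hm.comparison l n
    refine ⟨i.app M, q.app M, ?_, ?_⟩
    · rw [← NatTrans.comp_app, hiq]
      rfl
    · rw [← h2]
      have h5 : (RC l).H.map ((m.generic.map ((m.name M M).symm (y ≫ γ)))⟦n⟧') ≫ i.app M =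
          i.app M ≫ (RD l).H.map ((m.fibre.map ((m.name M M).symm (y ≫ γ)))⟦n⟧') :=
        i.naturality ((m.name M M).symm (y ≫ γ))
      have h6 : i.app M ≫ q.app M = 𝟙 _ := by
        rw [← NatTrans.comp_app, hiq]
        rfl
      rw [← reassoc_of% h5, h6]
      exact (Category.comp_id _).symm
  constructor
  · obtain ⟨i, q, hiq, hα⟩ := key j
    rw [hα, (he l).1, Category.id_comp, hiq]
  · intro n hn
    obtain ⟨i, q, hiq, hα⟩ := key n
    rw [hα, (he l).2 n hn, zero_comp, comp_zero]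

lemma nil_model {M : B} (hM : m.P M) (f : M ⟶ M)
    (hf : ∀ n : ℤ, (RC l₀).H.map ((m.generic.map f)⟦n⟧') = 0) :
    ∃ N : ℕ, ((show End M from f) ^ N : End M) = 0 := by
  obtain ⟨h1, he, hu, hc⟩ := facts hD ht
  obtain ⟨N, hN⟩ := hm.nilpotent M f hM hf
  obtain ⟨a, b, hab, ha, hb⟩ := exists_bounds he hc ((m.S.obj (op M)).obj M)
  have h2 := nilp h1 he hu (idem_unit' hD) (b - a + 1).toNat _ a b (by omega) ha hb _ hN
  have h3 := map_pow_end (m.S.obj (op M)) ((show End M from f) ^ N : End M) (b - a + 1).toNat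
  rw [h2] at h3
  refine ⟨N * (b - a + 1).toNat, ?_⟩
  have h4 : ((show End M from f) ^ (N * (b - a + 1).toNat) : End M) =
      ((show End M from ((show End M from f) ^ N : End M)) ^ (b - a + 1).toNat : End M) :=
    pow_mul _ _ _
  rw [h4]
  apply (map_eq_zero_iff _ (m.name M M).injective).1
  have h5 := m.name_right (𝟙 M)
    ((show End M from ((show End M from f) ^ N : End M)) ^ (b - a + 1).toNat : End M)
  rw [h3, comp_zero] at h5
  rw [← h5]
  congr 1
  exact (Category.id_comp _).symm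

end

section

variable {ι : Type*} {D : Type u₁} [Category.{v₁} D] [Preadditive D] [HasZeroObject D]
  [HasShift D ℤ] [∀ n : ℤ, (shiftFunctor D n).Additive] [Pretriangulated D] [IsTriangulated D]
  [MonoidalCategory D] [SymmetricCategory D] [TensorTriangulated D] [MonoidalPreadditive D]
  [RightRigidCategory D] [Linear ℚ D]
  {C : Type u₂} [Category.{v₂} C] [Preadditive C] [HasZeroObject C] [HasShift C ℤ]
  [∀ n : ℤ, (shiftFunctor C n).Additive] [Pretriangulated C] [IsTriangulated C]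
  [MonoidalCategory C] [SymmetricCategory C] [TensorTriangulated C] [MonoidalPreadditive C]
  [RightRigidCategory C] [IsIdempotentComplete C] [Linear ℚ C]
  {Λ : Type*} {E : Λ → Type w} [∀ l, Field (E l)] [∀ l, CharZero (E l)]
  {m : ι → Model.{v₁, v₂, v₃, u₁, u₂, u₃} D C} {RD : ∀ l, Realisation D (E l)}
  {RC : ∀ l, Realisation C (E l)} {l₀ : Λ} {PD : D → Prop} {PC : C → Prop} {TD : D} {TC : C}

/-- The t-structure over `K`. -/
theorem exists_t_up (hD : IsChow (RD l₀) PD TD) (hC : IsChow (RC l₀) PC TC)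
    (hm : ∀ i, IsModel (m i).family RD RC l₀ PD) (hs : SpreadOut m PC)
    {t : TStructure D} (ht : IsMotivic t RD) : ∃ t : TStructure C, IsMotivic t RC := by
  have hnil : ∀ M, PC M → Nil (RC l₀) M := by
    intro M hM f hf
    obtain ⟨i, Y, y, e, hY, hy⟩ := hs.endomorphism hM f
    obtain ⟨N, hN⟩ := nil_model (hm i) hD ht hY y (by
      intro n
      rw [hy, Functor.map_comp, Functor.map_comp, Functor.map_comp, Functor.map_comp, hf,
        zero_comp, comp_zero])
    refine ⟨N, ?_⟩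
    have h1 := map_pow_end (m i).family.generic y N
    rw [hN, Functor.map_zero, hy] at h1
    have h2 := Iso.conj_pow e.symm (show End M from f) N
    have h3 : e.symm.conj (show End M from f) = (show End ((m i).family.generic.obj Y) from
      e.hom ≫ f ≫ e.inv) := rfl
    rw [h3, ← h1] at h2
    have h4 : e.hom ≫ ((show End M from f) ^ N : End M) ≫ e.inv = 0 := h2
    rw [← cancel_epi e.hom, ← cancel_mono e.inv, Category.assoc, comp_zero, zero_comp]
    exact h4
  have hk : ∀ M, PC M → ∀ j : ℤ, ∃ e : M ⟶ M, ∀ l, IsKunneth (RC l) j e := by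
    intro M hM j
    obtain ⟨i, Y, y, e, hY, hy⟩ := hs.endomorphism hM (𝟙 M)
    obtain ⟨f, hf⟩ := exists_lift (hm i) hD ht hY j
    refine ⟨e.inv ≫ (m i).family.generic.map f ≫ e.hom, fun l => ⟨?_, fun n hn => ?_⟩⟩
    · rw [Functor.map_comp, Functor.map_comp, Functor.map_comp, Functor.map_comp, (hf l).1,
        Category.id_comp, ← Functor.map_comp, ← Functor.map_comp, e.inv_hom_id,
        CategoryTheory.Functor.map_id, CategoryTheory.Functor.map_id]
    · rw [Functor.map_comp, Functor.map_comp, Functor.map_comp, Functor.map_comp, (hf l).2 n hn,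
        zero_comp, comp_zero]
  refine exists_t hC (chowKunneth_of_projectors hC.toIsRigidClass l₀ hnil hk) ?_ ?_
  · intro M w hM hdeg n hn0 hnw f hf
    obtain ⟨i, Y, y, e₀, e, -, hy⟩ := hs.element f
    have h1 : y = 0 := by
      apply section_zero (hm i) hD ht y
      · intro k hk0
        have h2 : IsZero ((RC l₀).H.obj ((M⟦n⟧)⟦k⟧)) :=
          (hdeg l₀ (n + k) (by omega)).of_iso
            ((RC l₀).H.mapIso ((shiftFunctorAdd C n k).app M).symm)
        exact h2.of_iso ((RC l₀).H.mapIso ((shiftFunctor C k).mapIso e))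
      · rw [hy, Functor.map_comp, Functor.map_comp, hf, zero_comp, comp_zero]
    rw [h1, Functor.map_zero] at hy
    rw [← cancel_epi e₀.hom, ← cancel_mono e.inv, Category.assoc, ← hy, comp_zero, zero_comp]
  · intro M hM f hf
    obtain ⟨i, Y, y, e₀, e, hY, hy⟩ := hs.element f
    have hy' : f = e₀.inv ≫ (m i).family.generic.map y ≫ e.hom := by
      rw [hy]
      simp
    obtain ⟨g, hg⟩ := section_detect (hm i) hD ht (hY hM) (fun n hn =>
      ((deg_unit (R := RC l₀)) n (by omega)).of_iso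
        ((RC l₀).H.mapIso ((shiftFunctor C n).mapIso e₀))) y (by
      intro h0
      apply hf
      rw [hy', Functor.map_comp, Functor.map_comp, h0, zero_comp, comp_zero])
    refine ⟨e.inv ≫ (m i).family.generic.map g ≫ e₀.hom, fun h0 => hg ?_⟩
    have h1 : (m i).family.generic.map (y ≫ g) = e₀.hom ≫ (f ≫ e.inv ≫ (m i).family.generic.map g ≫ e₀.hom) ≫
        e₀.inv := by
      rw [hy', Functor.map_comp]
      simp
    rw [h1, h0, zero_comp, comp_zero, Functor.map_zero]

variable [IsIdempotentComplete D] {Φ : D ⥤ C} {e₀ : Φ.obj (𝟙_ D) ≅ 𝟙_ C}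

/-- The t-structure over `k`. -/
theorem exists_t_down (hD : IsChow (RD l₀) PD TD) (hC : IsChow (RC l₀) PC TC)
    (hΦ : IsBaseChange Φ e₀ RD RC PD PC) {t : TStructure C} (ht : IsMotivic t RC) :
    ∃ t : TStructure D, IsMotivic t RD := by
  obtain ⟨h1, he, hu, hc⟩ := facts hC ht
  have hcomp : ∀ (l : Λ) (n : ℤ) {X Y : D} (f : X ⟶ Y), (RD l).H.map (f⟦n⟧') = 0 ↔
      (RC l).H.map ((Φ.map f)⟦n⟧') = 0 := by
    intro l n X Y f
    obtain ⟨α⟩ := hΦ.comparison l n
    have h2 : (RD l).H.map (f⟦n⟧') ≫ (α.app Y).hom = (α.app X).hom ≫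
      (RC l).H.map ((Φ.map f)⟦n⟧') := α.hom.naturality f
    constructor
    · intro h3
      rw [h3, zero_comp] at h2
      rw [← cancel_epi (α.app X).hom, ← h2, comp_zero]
    · intro h3
      rw [h3, comp_zero] at h2
      rw [← cancel_mono (α.app Y).hom, h2, zero_comp]
  have hcomp0 : ∀ (l : Λ) {X Y : D} (f : X ⟶ Y), (RD l).H.map f = 0 ↔
      (RC l).H.map (Φ.map f) = 0 := by
    intro l X Y f
    rw [← H_shift_zero_iff, hcomp l 0 f, H_shift_zero_iff]
  have hdeg : ∀ (l : Λ) {X : D} (w : ℤ), (RD l).Deg X w → (RC l).Deg (Φ.obj X) w := by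
    intro l X w h3 n hn
    obtain ⟨α⟩ := hΦ.comparison l n
    exact (h3 n hn).of_iso (α.app X).symm
  have hinj := injectivity hC ht
  have hnum := homEqNum hC ht
  have hnil : ∀ M, PD M → Nil (RD l₀) M := by
    intro M hM f hf
    obtain ⟨a, b, hab, ha, hb⟩ := exists_bounds he hc (Φ.obj M)
    have h2 := nilp h1 he hu (idem_unit' hC) (b - a + 1).toNat (Φ.obj M) a b (by omega) ha hb
      (Φ.map f) (fun n => (hcomp l₀ n f).1 (hf n))
    refine ⟨(b - a + 1).toNat, ?_⟩
    apply hΦ.faithful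
    exact (map_pow_end Φ f _).trans h2
  have hk : ∀ M, PD M → ∀ j : ℤ, ∃ e : M ⟶ M, ∀ l, IsKunneth (RD l) j e := by
    intro M hM j
    obtain ⟨e, he⟩ := exists_kunneth_of_sum hC.toIsRigidClass j
      (chowKunneth hC ht _ (hΦ.chow hM))
    exact hΦ.projector hM j e he
  refine exists_t hD (chowKunneth_of_projectors hD.toIsRigidClass l₀ hnil hk) ?_ ?_
  · intro M w hM hdM n hn0 hnw f hf
    apply hΦ.faithful
    obtain ⟨θ⟩ := hΦ.shift M n
    have h2 : e₀.inv ≫ Φ.map f ≫ θ.hom = 0 := by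
      apply hinj _ w (hΦ.chow hM) (fun l => hdeg l w (hdM l)) n hn0 hnw
      rw [Functor.map_comp, Functor.map_comp, (hcomp0 l₀ f).1 hf, zero_comp, comp_zero]
    rw [← cancel_epi e₀.inv, ← cancel_mono θ.hom, Category.assoc, h2, comp_zero, zero_comp]
  · intro M hM f hf
    have h2 : (RC l₀).H.map (e₀.inv ≫ Φ.map f) ≠ 0 := by
      intro h3
      apply hf
      rw [hcomp0]
      rw [Functor.map_comp] at h3
      rw [← cancel_epi ((RC l₀).H.map e₀.inv), h3, comp_zero]
    obtain ⟨g, hg⟩ := hnum _ (hΦ.chow hM) _ h2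
    exact hΦ.specialise hM f g (by simpa only [Category.assoc] using hg)

end

end Pool.Agent.K6.H98.PF
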