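import Pool.Agent.T6helper6.AF.Forth

/-!
# Endomorphisms which are zero on cohomology are nilpotent, if there is a motivic t-structure
-/

set_option autoImplicit false
set_option linter.unusedSectionVars false
set_option linter.unusedSimpArgs false
set_option backward.isDefEq.respectTransparency false
set_option backward.defeqAttrib.useBackward true

open CategoryTheory Limits MonoidalCategory Pretriangulated Triangulated

namespace Pool.Agent.K6.H98.PF

open Pool.Agent.Y116.MT Pool.Agent.V1178.MT Pool.Agent.T6helper6.MT Pool.Agent.T6helper6.FF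
  Pool.Agent.T6helper6.AF

universe v u w

section

lemma pow_comp {C : Type*} [Category C] [Preadditive C] {X A : C} (h : X ⟶ A) (ι : A ⟶ X) (k : ℕ)
    (hk : ((show End A from ι ≫ h) ^ k : End A) = 0) :
    ((show End X from h ≫ ι) ^ (k + 1) : End X) = 0 := by
  have key : ∀ k : ℕ, ((show End X from h ≫ ι) ^ (k + 1) : End X) =
      (h ≫ ((show End A from ι ≫ h) ^ k : End A) ≫ ι : X ⟶ X) := by
    intro k
    induction k with
    | zero =>
      rw [pow_zero, zero_add, pow_one]
      change h ≫ ι = h ≫ 𝟙 A ≫ ι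
      rw [Category.id_comp]
    | succ k ih =>
      rw [pow_succ, ih, pow_succ (show End A from ι ≫ h) k]
      change (h ≫ ι) ≫ h ≫ ((show End A from ι ≫ h) ^ k : End A) ≫ ι =
        h ≫ ((ι ≫ h) ≫ ((show End A from ι ≫ h) ^ k : End A)) ≫ ι
      simp only [Category.assoc]
  rw [key, hk, zero_comp, comp_zero]

variable {C : Type u} [Category.{v} C] [Preadditive C] [HasZeroObject C] [HasShift C ℤ]
  [∀ n : ℤ, (shiftFunctor C n).Additive] [Pretriangulated C] [MonoidalCategory C]
  [SymmetricCategory C] [TensorTriangulated C] [MonoidalPreadditive C] [RightRigidCategory C]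
  [IsTriangulated C] {E : Type w} [Field E] {R : Realisation C E} {t : TStructure C}
  (ht : TensorCompat t) (he : TExact t R) (hu : Hrt t (𝟙_ C))
  (hid : ∀ e : 𝟙_ C ⟶ 𝟙_ C, e ≫ e = e → e = 0 ∨ e = 𝟙 _)

include ht he hu hid

lemma nilp (k : ℕ) : ∀ (X : C) (a b : ℤ), b - a < k → t.IsGE X a → t.IsLE X b → ∀ f : X ⟶ X,
    (∀ n : ℤ, R.H.map (f⟦n⟧') = 0) → ((show End X from f) ^ k : End X) = 0 := by
  induction k with
  | zero =>
    intro X a b hab h1 h2 f _
    have h3 : IsZero X := t.isZero X b a (by omega)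
    exact h3.eq_of_src _ _
  | succ k ih =>
    intro X a b hab h1 h2 f hf
    by_cases hba : b < a
    · exact (t.isZero X b a (by omega)).eq_of_src _ _
    obtain ⟨A, B, hA, hB, ι, q, d, hT⟩ := t.exists_triangle X (b - 1) b (by omega)
    have hA1 : t.IsLE A (b - 1) := ⟨hA⟩
    have hB1 : t.IsGE B b := ⟨hB⟩
    have hB2 : t.IsLE B b := isLE3 hT (@TStructure.isLE_of_le _ _ _ _ _ _ _ t _ (b - 1) (b + 1)
      (by omega) hA1) h2
    have hA2 : t.IsGE A a := isGE1 hT h1 (@TStructure.isGE_of_ge _ _ _ _ _ _ _ t _ (a - 1) b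
      (by omega) hB1)
    obtain ⟨g, hg⟩ := ye2 hT (f ≫ q) (t.zero_of_isLE_of_isGE _ (b - 1) b (by omega) hA1 hB1)
    have hq : IsIso (R.H.map (q⟦b⟧')) := isIso_trunc' he hT hA1
    have hg0 : g = 0 := by
      have h3 : Cn t 0 (B⟦b⟧) := (show Cn t b B from ⟨hB2, hB1⟩).shift b 0 (by omega)
      apply (shiftFunctor C b).map_injective
      rw [Functor.map_zero]
      apply faithful_heart ht he hu hid ⟨h3.1, h3.2⟩ ⟨h3.1, h3.2⟩
      rw [← cancel_epi (R.H.map (q⟦b⟧')), ← Functor.map_comp, ← Functor.map_comp, ← hg,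
        Functor.map_comp, Functor.map_comp, hf, zero_comp, comp_zero]
    rw [hg0, comp_zero] at hg
    obtain ⟨h, hh⟩ := ce2 hT f hg
    have h4 := ih A a (b - 1) (by push_cast at hab; omega) hA2 hA1 (ι ≫ h) (by
      intro n
      by_cases hn : n ≤ b - 1
      · have h5 : IsIso (R.H.map (ι⟦n⟧')) := isIso_trunc he hT
          (@TStructure.isGE_of_ge _ _ _ _ _ _ _ t _ (n + 1) b (by omega) hB1)
        have h6 : R.H.map (h⟦n⟧') = 0 := by
          rw [← cancel_mono (R.H.map (ι⟦n⟧')), zero_comp, ← Functor.map_comp, ← Functor.map_comp,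
            ← hh, hf]
        rw [Functor.map_comp, Functor.map_comp, h6, comp_zero]
      · exact (he.isLE hA1 n (by omega)).eq_of_src _ _)
    rw [hh]
    exact pow_comp h ι k h4

end

end Pool.Agent.K6.H98.PF
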