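import Pool.Agent.K6.H98.PF.Defs
import Pool.Agent.K6.H98.PF.Nilp

/-!
# Chow motives over a field with a motivic t-structure
-/

set_option autoImplicit false
set_option linter.unusedSectionVars false
set_option linter.unusedSimpArgs false
set_option backward.isDefEq.respectTransparency false
set_option backward.defeqAttrib.useBackward true

open CategoryTheory Limits MonoidalCategory Pretriangulated Triangulated Opposite

namespace Pool.Agent.K6.H98.PF

open Pool.Agent.Y116.MT Pool.Agent.V1178.MT Pool.Agent.T6helper6.MT Pool.Agent.T6helper6.FF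
  Pool.Agent.T6helper6.AF

universe v u w

section

variable {C : Type u} [Category.{v} C] [Preadditive C] [HasZeroObject C] [HasShift C ℤ]
  [∀ n : ℤ, (shiftFunctor C n).Additive] [Pretriangulated C] [MonoidalCategory C]
  [SymmetricCategory C] [TensorTriangulated C] {E : Type w} [Field E] {R : Realisation C E}

lemma H_shift_zero {X Y : C} (f : X ⟶ Y) : R.H.map (f⟦(0 : ℤ)⟧') =
    R.H.map ((shiftFunctorZero C ℤ).hom.app X) ≫ R.H.map f ≫
      R.H.map ((shiftFunctorZero C ℤ).inv.app Y) := by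
  have h5 : f⟦(0 : ℤ)⟧' = (shiftFunctorZero C ℤ).hom.app _ ≫ f ≫
      (shiftFunctorZero C ℤ).inv.app _ := shiftZero' (A := ℤ) (f := f)
  rw [h5, Functor.map_comp, Functor.map_comp]

lemma H_shift_zero_iff {X Y : C} (f : X ⟶ Y) : R.H.map (f⟦(0 : ℤ)⟧') = 0 ↔ R.H.map f = 0 := by
  rw [H_shift_zero]
  constructor
  · intro h
    rw [← cancel_epi (R.H.map ((shiftFunctorZero C ℤ).hom.app X)),
      ← cancel_mono (R.H.map ((shiftFunctorZero C ℤ).inv.app Y)), Category.assoc, h, comp_zero,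
      zero_comp]
  · intro h
    rw [h, zero_comp, comp_zero]

lemma H_shift_zero_one {X : C} (f : X ⟶ X) (h : R.H.map (f⟦(0 : ℤ)⟧') = 𝟙 _) :
    R.H.map f = 𝟙 _ := by
  rw [H_shift_zero] at h
  have h1 : R.H.map ((shiftFunctorZero C ℤ).hom.app X) ≫
      R.H.map ((shiftFunctorZero C ℤ).inv.app X) = 𝟙 _ := by
    rw [← Functor.map_comp, Iso.hom_inv_id_app, CategoryTheory.Functor.map_id]
  have h2 : R.H.map f ≫ R.H.map ((shiftFunctorZero C ℤ).inv.app X) =
      R.H.map ((shiftFunctorZero C ℤ).inv.app X) := by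
    rw [← cancel_epi (R.H.map ((shiftFunctorZero C ℤ).hom.app X)), h, h1]
  rw [← cancel_mono (R.H.map ((shiftFunctorZero C ℤ).inv.app X)), h2]
  exact (Category.id_comp _).symm

variable [MonoidalPreadditive C] [RightRigidCategory C]

/-- A morphism whose name is zero on cohomology is zero on cohomology. -/
lemma H_of_nm {M N : C} (g : M ⟶ N) (hg : R.H.map (nm g) = 0) (n : ℤ) : R.H.map (g⟦n⟧') = 0 := by
  have h1 : ∀ i : ℤ, R.H.map ((nm g)⟦i⟧') = 0 := by
    intro i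
    by_cases hi : i = 0
    · subst hi
      exact (H_shift_zero_iff _).2 hg
    · exact (deg_unit (R := R) i hi).eq_of_src _ _
  have h2 : R.H.map ((nm g ▷ M)⟦n⟧') = 0 := by
    have h3 := rShift_natural_left (nm g) M n
    have h4 := H_whisker_zero (R := R) (nm g) h1 (M⟦n⟧)
    rw [← cancel_epi (R.H.map (rShift (𝟙_ C) M n).hom), ← Functor.map_comp, ← h3,
      Functor.map_comp, h4, zero_comp, comp_zero]
  rw [nm_recover g]
  simp only [Functor.map_comp]
  rw [h2, zero_comp, comp_zero]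

lemma nm_sub {M N : C} (f g : M ⟶ N) : nm (f - g) = nm f - nm g := by
  have h1 : (f - g) ▷ Mᘁ = f ▷ Mᘁ - g ▷ Mᘁ := (tensorRight Mᘁ).map_sub
  rw [nm, h1, Preadditive.comp_sub]
  rfl

lemma H_of_nm_eq {M N : C} (f g : M ⟶ N) (h : R.H.map (nm f) = R.H.map (nm g)) (n : ℤ) :
    R.H.map (f⟦n⟧') = R.H.map (g⟦n⟧') := by
  have h1 := H_of_nm (R := R) (f - g) (by rw [nm_sub, Functor.map_sub, h, sub_self]) n
  rw [Functor.map_sub, Functor.map_sub, sub_eq_zero] at h1
  exact h1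

end

section

variable {C : Type u} [Category.{v} C] [Preadditive C] [HasZeroObject C] [HasShift C ℤ]
  [∀ n : ℤ, (shiftFunctor C n).Additive] [Pretriangulated C] [MonoidalCategory C]
  [SymmetricCategory C] [TensorTriangulated C] [MonoidalPreadditive C] [RightRigidCategory C]
  [Linear ℚ C] {Λ : Type*} {E : Λ → Type w} [∀ l, Field (E l)] [∀ l, CharZero (E l)]
  {R : ∀ l, Realisation C (E l)} {P : C → Prop}

/-- The part in degree `j` of a split Chow motive. -/
lemma exists_part (hP : IsRigidClass P) (j : ℤ) {M : C} (hM : IsSum R P M) :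
    ∃ (L : C) (i : L ⟶ M) (r : M ⟶ L), P L ∧ (∀ l, (R l).Deg L j) ∧ i ≫ r = 𝟙 L ∧
      ∀ l, (R l).H.map ((r ≫ i)⟦j⟧') = 𝟙 _ := by
  induction hM with
  | @zero X hX =>
    have hXj : ∀ l (n : ℤ), IsZero ((R l).H.obj (X⟦n⟧)) := fun l n =>
      (R l).H.map_isZero (isZero_shift hX n)
    exact ⟨X, 𝟙 X, 𝟙 X, hP.summand 0 0 (by rw [zero_comp]; exact hX.eq_of_src _ _) hP.one,
      fun l n _ => hXj l n, Category.comp_id _, fun l => (hXj l j).eq_of_src _ _⟩
  | @sum X L Y n e hL dL hY ih =>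
    obtain ⟨L', i, r, hL', dL', hir, hri⟩ := ih
    have key : ∀ l, (R l).H.map ((e.hom ≫ biprod.snd ≫ biprod.inr ≫ e.inv)⟦j⟧') =
        𝟙 _ - (R l).H.map ((e.hom ≫ biprod.fst ≫ biprod.inl ≫ e.inv)⟦j⟧') := by
      intro l
      rw [eq_sub_iff_add_eq, ← Functor.map_add, ← Functor.map_add,
        ← CategoryTheory.Functor.map_id, ← CategoryTheory.Functor.map_id]
      congr 2
      calc e.hom ≫ biprod.snd ≫ biprod.inr ≫ e.inv + e.hom ≫ biprod.fst ≫ biprod.inl ≫ e.inv =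
          e.hom ≫ (biprod.fst ≫ biprod.inl + biprod.snd ≫ biprod.inr) ≫ e.inv := by
            simp only [Preadditive.add_comp, Preadditive.comp_add, Category.assoc]
            rw [add_comm]
        _ = 𝟙 X := by rw [biprod.total, Category.id_comp, Iso.hom_inv_id]
    have key2 : ∀ l, (R l).H.map ((e.hom ≫ biprod.snd ≫ (r ≫ i) ≫ biprod.inr ≫ e.inv)⟦j⟧') =
        (R l).H.map ((e.hom ≫ biprod.snd ≫ biprod.inr ≫ e.inv)⟦j⟧') := by
      intro l
      have h1 := hri l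
      simp only [Functor.map_comp] at h1 ⊢
      rw [h1, Category.id_comp]
    by_cases hn : n = j
    · subst hn
      refine ⟨L ⊞ L', biprod.map (𝟙 L) i ≫ e.inv, e.hom ≫ biprod.map (𝟙 L) r, hP.sum hL hL',
        fun l => deg_biprod (R l) (dL l) (dL' l), ?_, fun l => ?_⟩
      · rw [Category.assoc, Iso.inv_hom_id_assoc]
        ext <;> simp [hir]
      · have h2 : (e.hom ≫ biprod.map (𝟙 L) r) ≫ biprod.map (𝟙 L) i ≫ e.inv =
            e.hom ≫ biprod.fst ≫ biprod.inl ≫ e.inv +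
              e.hom ≫ biprod.snd ≫ (r ≫ i) ≫ biprod.inr ≫ e.inv := by
          have h3 : biprod.map (𝟙 L) r ≫ biprod.map (𝟙 L) i =
              biprod.fst ≫ biprod.inl + biprod.snd ≫ (r ≫ i) ≫ biprod.inr := by
            ext <;> simp
          rw [Category.assoc, ← Category.assoc (biprod.map (𝟙 L) r), h3]
          simp only [Preadditive.add_comp, Preadditive.comp_add, Category.assoc]
        rw [h2, Functor.map_add, Functor.map_add, key2, key]
        abel
    · refine ⟨L', i ≫ biprod.inr ≫ e.inv, e.hom ≫ biprod.snd ≫ r, hL', dL', by simp [hir],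
        fun l => ?_⟩
      have h2 : (e.hom ≫ biprod.snd ≫ r) ≫ i ≫ biprod.inr ≫ e.inv =
          e.hom ≫ biprod.snd ≫ (r ≫ i) ≫ biprod.inr ≫ e.inv := by
        simp only [Category.assoc]
      have h4 : (R l).H.map ((e.hom ≫ biprod.fst ≫ biprod.inl ≫ e.inv)⟦j⟧') = 0 := by
        have h5 := (dL l j (Ne.symm hn)).eq_of_tgt ((R l).H.map ((e.hom ≫ biprod.fst)⟦j⟧')) 0
        have h6 : e.hom ≫ biprod.fst ≫ biprod.inl ≫ e.inv =
            (e.hom ≫ biprod.fst) ≫ biprod.inl ≫ e.inv := by simp only [Category.assoc]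
        rw [h6, Functor.map_comp, Functor.map_comp, h5, zero_comp]
      rw [h2, key2, key, h4, sub_zero]

/-- The Künneth projectors of a split Chow motive. -/
lemma exists_kunneth_of_sum (hP : IsRigidClass P) (j : ℤ) {M : C} (hM : IsSum R P M) :
    ∃ e : M ⟶ M, ∀ l, IsKunneth (R l) j e := by
  obtain ⟨L, i, r, -, dL, -, hri⟩ := exists_part hP j hM
  refine ⟨r ≫ i, fun l => ⟨hri l, fun n hn => ?_⟩⟩
  rw [Functor.map_comp, Functor.map_comp, (dL l n hn).eq_of_tgt ((R l).H.map (r⟦n⟧')) 0, zero_comp]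

variable [IsTriangulated C] {l₀ : Λ} {T : C} (h : IsChow (R l₀) P T) {t : TStructure C}
  (hm : IsMotivic t R)

include h hm

/-- Elements of objects without cohomology in negative degrees are detected on cohomology. -/
lemma elt_zero {Y : C} (hY : ∀ n : ℤ, n < 0 → IsZero ((R l₀).H.obj (Y⟦n⟧))) (x : 𝟙_ C ⟶ Y)
    (hx : (R l₀).H.map x = 0) : x = 0 := by
  obtain ⟨ht, he, hu, hc⟩ := facts h hm
  have hY0 : t.IsGE Y 0 := isGE_of hc he hY
  obtain ⟨A, B, hA, hB, ι, q, d, hT⟩ := t.exists_triangle Y 0 1 rfl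
  have hA1 : t.IsLE A 0 := ⟨hA⟩
  have hB1 : t.IsGE B 1 := ⟨hB⟩
  have hA2 : t.IsGE A 0 := isGE1 hT hY0 (@TStructure.isGE_of_ge _ _ _ _ _ _ _ t _ (0 - 1) 1
    (by omega) hB1)
  obtain ⟨y, hy⟩ := ce2 hT x (t.zero_of_isLE_of_isGE _ 0 1 (by omega) hu.1 hB1)
  have hι : IsIso ((R l₀).H.map (ι⟦(0 : ℤ)⟧')) := isIso_trunc he hT (by simpa using hB1)
  have hy0 : (R l₀).H.map y = 0 := by
    rw [← H_shift_zero_iff, ← cancel_mono ((R l₀).H.map (ι⟦(0 : ℤ)⟧')), zero_comp,
      ← Functor.map_comp, ← Functor.map_comp, ← hy, H_shift_zero_iff]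
    exact hx
  rw [hy, faithful_heart ht he hu (idem_unit' h) hu ⟨hA1, hA2⟩ y hy0, zero_comp]

/-- A morphism from a Chow motive to the unit which is nonzero on cohomology. -/
lemma detect_pure {N : C} (hN : P N) (c : N ⟶ 𝟙_ C) (hc : (R l₀).H.map c ≠ 0) :
    ∃ w : 𝟙_ C ⟶ N, w ≫ c ≠ 0 := by
  obtain ⟨L, i, r, hL, dL, hir, hri⟩ := exists_part h.toIsRigidClass 0 (chowKunneth h hm N hN)
  obtain ⟨μ, hμ⟩ := reg_pair h (homNum h hm) hL h.one dL (fun _ => deg_unit) l₀ (i ≫ c)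
  refine ⟨μ ≫ i, fun h0 => hc ?_⟩
  rw [Category.assoc] at h0
  rw [h0, comp_zero] at hμ
  have h1 := H_shift_zero_one _ (hri l₀)
  have h2 : (R l₀).H.map c = (R l₀).H.map (r ≫ i) ≫ (R l₀).H.map c := by
    rw [h1, Category.id_comp]
  rw [h2, ← Functor.map_comp, Category.assoc, ← hμ, comp_zero, Functor.map_zero]

/-- Lifting along morphisms of Chow motives. -/
lemma factor_pure {N G : C} (hN : P N) (hG : P G) (τ : N ⟶ G) (x : 𝟙_ C ⟶ G)
    (hx : LinearMap.range ((R l₀).H.map x).hom ≤ LinearMap.range ((R l₀).H.map τ).hom) :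
    ∃ y : 𝟙_ C ⟶ N, ∀ l, (R l).H.map (y ≫ τ) = (R l).H.map x := by
  obtain ⟨L, i, r, hL, dL, hir, hri⟩ := exists_part h.toIsRigidClass 0 (chowKunneth h hm N hN)
  obtain ⟨L', i', r', hL', dL', hir', hri'⟩ :=
    exists_part h.toIsRigidClass 0 (chowKunneth h hm G hG)
  obtain ⟨μ, hμ⟩ := reg_pair h (homNum h hm) hL hL' dL dL' l₀ (i ≫ τ ≫ r')
  have h3 : x ≫ r' - (x ≫ r') ≫ μ ≫ i ≫ τ ≫ r' = 0 := by
    apply elt_zero h hm (fun n hn => dL' l₀ n (by omega))
    rw [Functor.map_sub, sub_eq_zero]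
    apply ModuleCat.hom_ext
    ext v
    obtain ⟨w, hw⟩ := hx (LinearMap.mem_range_self _ v)
    have h4 : (R l₀).H.map τ = (R l₀).H.map r ≫ (R l₀).H.map (i ≫ τ) := by
      rw [← Functor.map_comp, ← Category.assoc, Functor.map_comp (R l₀).H (r ≫ i) τ,
        H_shift_zero_one _ (hri l₀), Category.id_comp]
    have h5 : ((R l₀).H.map (i ≫ τ ≫ r')).hom (((R l₀).H.map r).hom w) =
        ((R l₀).H.map (x ≫ r')).hom v := by
      rw [Functor.map_comp (R l₀).H x r', ← Category.assoc, Functor.map_comp (R l₀).H (i ≫ τ) r']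
      change ((R l₀).H.map r').hom (((R l₀).H.map (i ≫ τ)).hom (((R l₀).H.map r).hom w)) =
        ((R l₀).H.map r').hom (((R l₀).H.map x).hom v)
      rw [← hw, h4]
      rfl
    have h6 : (R l₀).H.map (i ≫ τ ≫ r') = (R l₀).H.map (i ≫ τ ≫ r') ≫ (R l₀).H.map μ ≫
        (R l₀).H.map (i ≫ τ ≫ r') := by
      rw [← Functor.map_comp, ← Functor.map_comp, hμ]
    rw [Functor.map_comp (R l₀).H (x ≫ r'), Functor.map_comp (R l₀).H μ]
    change _ = ((R l₀).H.map (i ≫ τ ≫ r')).hom (((R l₀).H.map μ).hom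
      (((R l₀).H.map (x ≫ r')).hom v))
    rw [← h5]
    exact LinearMap.congr_fun (congrArg ModuleCat.Hom.hom h6) (((R l₀).H.map r).hom w)
  rw [sub_eq_zero] at h3
  refine ⟨(x ≫ r') ≫ μ ≫ i, fun l => ?_⟩
  have h7 : (R l).H.map (((x ≫ r') ≫ μ ≫ i) ≫ τ) =
      (R l).H.map (((x ≫ r') ≫ μ ≫ i ≫ τ ≫ r') ≫ i') := by
    have h8 : ((x ≫ r') ≫ μ ≫ i ≫ τ ≫ r') ≫ i' = (((x ≫ r') ≫ μ ≫ i) ≫ τ) ≫ r' ≫ i' := by
      simp only [Category.assoc]
    rw [h8, Functor.map_comp _ _ (r' ≫ i'), H_shift_zero_one _ (hri' l), Category.comp_id]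
  rw [h7, ← h3, Category.assoc, Functor.map_comp, H_shift_zero_one _ (hri' l), Category.comp_id]

end

end Pool.Agent.K6.H98.PF
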